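import Pool.Agent.P.MP_93ad88_nt.Main

set_option autoImplicit false

namespace Pool.Agent.P.MP_93ad88_nt.PW

open Polynomial

/-- `A` has its exponents in `[1, 2q - 1]` (a Laurent polynomial centred at `q`). -/
def Win (q : ℕ) (A : ℤ[X]) : Prop := A.coeff 0 = 0 ∧ A.natDegree < 2 * q

/-- constant term of `A P^(q m)`, with `A` centred at `q` -/
noncomputable def S (q : ℕ) (A : ℤ[X]) (m : ℕ) : ℤ := (A * PP ^ (q * m)).coeff (q + q * m)

/-- the error made by replacing `P^(p q m)` with `P(x^p)^(q m)` -/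
noncomputable def E (p q : ℕ) (A : ℤ[X]) (m : ℕ) : ℤ :=
  (A * (PP ^ (p * q * m) - expand ℤ p (PP ^ (q * m)))).coeff (p * q + p * q * m)

lemma coeff_exp {p : ℕ} (hp : p ≠ 0) (q : ℕ) (A : ℤ[X]) (m : ℕ) :
    (A * expand ℤ p (PP ^ (q * m))).coeff (p * q + p * q * m) = S q (contract p A) m := by
  rw [S, ← contract_mul_expand hp, coeff_contract hp]
  congr 1; ring

lemma S_eq {p : ℕ} (hp : p ≠ 0) (q : ℕ) (A : ℤ[X]) (m : ℕ) :
    S (p * q) A m = S q (contract p A) m + E p q A m := by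
  rw [← coeff_exp hp, E, mul_sub, coeff_sub, S]; ring

lemma Win.contract {p q : ℕ} (hp : p ≠ 0) (hq : q ≠ 0) {A : ℤ[X]} (h : Win (p * q) A) :
    Win q (contract p A) := by
  refine ⟨by rw [coeff_contract hp, zero_mul, h.1], ?_⟩
  have : (Polynomial.contract p A).natDegree ≤ 2 * q - 1 := by
    rw [natDegree_le_iff_coeff_eq_zero]
    intro n hn
    rw [coeff_contract hp]
    apply coeff_eq_zero_of_natDegree_lt
    have h1 : 2 * q ≤ n := by omega
    have h2 := h.2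
    have h3 : 2 * q * p ≤ n * p := Nat.mul_le_mul_right p h1
    nlinarith
  omega

lemma Win.up {p q d : ℕ} (hd : d < p) {A G : ℤ[X]} (h : Win q A) (hG : G.natDegree ≤ 2 * (q * d)) :
    Win (p * q) (A * G * X ^ (q * (p - 1 - d))) := by
  refine ⟨by rw [mul_assoc, mul_coeff_zero, h.1, zero_mul], ?_⟩
  obtain ⟨e, rfl⟩ : ∃ e, p = d + 1 + e := ⟨p - 1 - d, by omega⟩
  have h1 : (A * G * X ^ (q * (d + 1 + e - 1 - d))).natDegree
      ≤ A.natDegree + G.natDegree + q * (d + 1 + e - 1 - d) := by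
    refine natDegree_mul_le.trans (Nat.add_le_add natDegree_mul_le ?_)
    exact natDegree_X_pow_le _
  have h2 := h.2
  rw [show d + 1 + e - 1 - d = e by omega] at h1 ⊢
  nlinarith [Nat.zero_le (q * e)]

lemma coeff_up {p q d : ℕ} (hd : d < p) (F : ℤ[X]) (m : ℕ) :
    F.coeff (q + q * (d + p * m)) = (F * X ^ (q * (p - 1 - d))).coeff (p * q + p * q * m) := by
  obtain ⟨e, rfl⟩ : ∃ e, p = d + 1 + e := ⟨p - 1 - d, by omega⟩
  rw [show d + 1 + e - 1 - d = e by omega, ← coeff_mul_X_pow F (q * e)]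
  congr 1; ring

lemma S_one {A : ℤ[X]} (h : Win 1 A) (m : ℕ) : S 1 A m = A.coeff 1 * trinomial m := by
  have h1 : A = C (A.coeff 1) * X := by
    have h2 := h.2
    have h3 := eq_X_add_C_of_natDegree_le_one (p := A) (by omega)
    rw [h.1] at h3
    simpa using h3
  rw [S, one_mul, tri_eq, t]
  conv_lhs => rw [h1]
  rw [mul_assoc, coeff_C_mul, add_comm 1 m, mul_comm X, coeff_mul_X]

lemma win_X : Win 1 (X : ℤ[X]) := ⟨by simp, by simp⟩

lemma T_eq_S (m : ℕ) : trinomial m = S 1 X m := by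
  rw [S_one win_X]; simp

lemma S_up {p q d : ℕ} (hd : d < p) (A : ℤ[X]) (m : ℕ) :
    S q A (d + p * m) = S (p * q) (A * PP ^ (q * d) * X ^ (q * (p - 1 - d))) m := by
  rw [S, S, coeff_up hd]
  congr 1
  rw [show q * (d + p * m) = q * d + p * q * m by ring, pow_add]; ring

section
variable {p : ℕ} (hp : p.Prime)
include hp

lemma frob0 : (p : ℤ[X]) ∣ PP ^ p - expand ℤ p PP := by
  have := Fact.mk hp
  rw [← C_eq_natCast, C_dvd_iff_dvd_coeff]
  intro i
  rw [← ZMod.intCast_zmod_eq_zero_iff_dvd]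
  have h1 : (PP ^ p - expand ℤ p PP).map (Int.castRingHom (ZMod p)) = 0 := by
    rw [Polynomial.map_sub, map_expand, ZMod.expand_card, Polynomial.map_pow, sub_self]
  have h2 := congrArg (fun f => coeff f i) h1
  simp only [coeff_map, coeff_zero] at h2
  exact h2

lemma frob (i d : ℕ) : C ((p : ℤ) ^ (i + 1)) ∣
    PP ^ (p * p ^ i * d) - expand ℤ p (PP ^ (p ^ i * d)) := by
  have h1 := dvd_sub_pow_of_dvd_sub (frob0 hp) i
  have h2 := sub_dvd_pow_sub_pow ((PP ^ p) ^ p ^ i) ((expand ℤ p PP) ^ p ^ i) d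
  have h3 := h1.trans h2
  rw [← pow_mul, ← pow_mul, ← pow_mul, ← map_pow] at h3
  rw [map_pow, C_eq_natCast, mul_assoc]
  exact h3

lemma dvd_E (i : ℕ) (A : ℤ[X]) (m : ℕ) : (p : ℤ) ^ (i + 1) ∣ E p (p ^ i) A m := by
  obtain ⟨G, hG⟩ := frob hp i m
  rw [E, hG, mul_left_comm, coeff_C_mul]
  exact dvd_mul_right _ _

lemma E_rec (i : ℕ) {d : ℕ} (hd : d < p) {A : ℤ[X]} (h : Win (p * p ^ i) A) :
    ∃ A' B : ℤ[X], Win (p * p ^ (i + 1)) A' ∧ Win (p ^ (i + 1)) B ∧ (d = 0 → B = 0) ∧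
      ∀ m, E p (p ^ i) A (d + p * m)
        = (p : ℤ) ^ (i + 1) * S (p ^ (i + 1)) B m + E p (p ^ (i + 1)) A' m := by
  obtain ⟨G, hG⟩ := frob hp i d
  have hp0 : (p : ℤ) ^ (i + 1) ≠ 0 := pow_ne_zero _ (by exact_mod_cast hp.ne_zero)
  have hq : p ^ (i + 1) = p * p ^ i := pow_succ' p i
  have hdeg : G.natDegree ≤ 2 * (p * p ^ i * d) := by
    rw [← natDegree_C_mul hp0, ← hG]
    refine (natDegree_sub_le _ _).trans (max_le (PP_pow_natDegree _).le ?_)
    rw [natDegree_expand, PP_pow_natDegree]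
    apply le_of_eq; ring
  refine ⟨A * PP ^ (p * p ^ i * d) * X ^ (p * p ^ i * (p - 1 - d)),
    contract p (A * G * X ^ (p * p ^ i * (p - 1 - d))), ?_, ?_, ?_, ?_⟩
  · rw [hq]; exact h.up hd (PP_pow_natDegree _).le
  · rw [hq]
    exact Win.contract hp.ne_zero (mul_ne_zero hp.ne_zero (pow_ne_zero _ hp.ne_zero))
      (h.up hd hdeg)
  · rintro rfl
    simp only [mul_zero, pow_zero, map_one, sub_self] at hG
    have : G = 0 := by
      rcases mul_eq_zero.1 hG.symm with h0 | h0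
      · exact absurd (C_eq_zero.1 h0) hp0
      · exact h0
    subst this
    ext n
    simp [coeff_contract hp.ne_zero]
  · intro m
    rw [← coeff_exp hp.ne_zero, E, E, hq, coeff_up hd, ← coeff_C_mul, ← coeff_add]
    congr 1
    have e1 : PP ^ (p * p ^ i * (d + p * m))
        = PP ^ (p * p ^ i * d) * PP ^ (p * (p * p ^ i) * m) := by
      rw [← pow_add]; congr 1; ring
    have e2 : expand ℤ p (PP ^ (p ^ i * (d + p * m)))
        = expand ℤ p (PP ^ (p ^ i * d)) * expand ℤ p (PP ^ (p * p ^ i * m)) := by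
      rw [← map_mul, ← pow_add]; congr 2; ring
    rw [e1, e2]
    linear_combination (A * X ^ (p * p ^ i * (p - 1 - d)) * expand ℤ p (PP ^ (p * p ^ i * m))) * hG

/-- one digit removed, exactly -/
lemma T_digit {d : ℕ} (hd : d < p) : ∃ A : ℤ[X], Win (p * p ^ 0) A ∧ ∀ m,
    trinomial (d + p * m) = S (p ^ 1) A m ∧
    trinomial (d + p * m) = trinomial d * trinomial m + E p (p ^ 0) A m := by
  have hw : Win (p * 1) (X * PP ^ (1 * d) * X ^ (1 * (p - 1 - d))) :=
    win_X.up hd (PP_pow_natDegree _).le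
  refine ⟨X * PP ^ (1 * d) * X ^ (1 * (p - 1 - d)), by simpa using hw, fun m => ?_⟩
  have h1 : ∀ m, trinomial (d + p * m)
      = S (p * 1) (X * PP ^ (1 * d) * X ^ (1 * (p - 1 - d))) m := fun m => by
    rw [T_eq_S, S_up hd]
  have hc := Win.contract hp.ne_zero one_ne_zero hw
  have h2 : trinomial d = (contract p (X * PP ^ (1 * d) * X ^ (1 * (p - 1 - d)))).coeff 1 := by
    have := h1 0
    rw [S_eq hp.ne_zero, S_one hc, T0] at this
    simpa [E] using this
  refine ⟨by rw [h1, pow_one, mul_one], ?_⟩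
  rw [h1, S_eq hp.ne_zero, S_one hc, ← h2, pow_zero]

end

end Pool.Agent.P.MP_93ad88_nt.PW
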