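import Pool.Agent.P.MP_93ad88_nt.PW.Unit

set_option autoImplicit false

namespace Pool.Agent.P.MP_93ad88_nt.PW

open Polynomial

/-- the index with digits `j 0 j 0 ... j` -/
def mu (p j : ℕ) : ℕ → ℕ
  | 0 => 0
  | k + 1 => j + p * (0 + p * mu p j k)

lemma mu_lt {p j : ℕ} (hj : j < p) (k : ℕ) : p * mu p j k < p ^ (2 * k) := by
  induction k with
  | zero => simp [mu]
  | succ k ih =>
    rw [mu, show 2 * (k + 1) = 2 * k + 1 + 1 by ring, pow_succ', pow_succ', zero_add]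
    apply Nat.mul_lt_mul_of_pos_left _ (by omega)
    have h : p * (p * mu p j k + 1) ≤ p * p ^ (2 * k) := Nat.mul_le_mul_left p ih
    nlinarith

/-- the ratios `T a / T (a+1)` and `T b / T (b+1)` agree modulo `p^K` -/
def Rel (p K a b : ℕ) : Prop :=
  (p : ℤ) ^ K ∣ trinomial a * trinomial (b + 1) - trinomial b * trinomial (a + 1)

section
variable {p : ℕ} (hp : p.Prime)
include hp

lemma S_dvd {c : ℤ} {m : ℕ} (hE : ∀ (i : ℕ) (A : ℤ[X]), Win (p * p ^ i) A → c ∣ E p (p ^ i) A m)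
    (hT : c ∣ trinomial m) (i : ℕ) : ∀ A : ℤ[X], Win (p ^ i) A → c ∣ S (p ^ i) A m := by
  induction i with
  | zero =>
    intro A hA
    rw [pow_zero] at hA ⊢
    rw [S_one hA]
    exact hT.mul_left _
  | succ i ih =>
    intro A hA
    rw [pow_succ'] at hA ⊢
    rw [S_eq hp.ne_zero]
    exact dvd_add (ih _ (hA.contract hp.ne_zero (pow_ne_zero _ hp.ne_zero))) (hE i A hA)

lemma zero_case {j : ℕ} (hj : j < p) (hz : (p : ℤ) ∣ trinomial j) (k : ℕ) :
    (∀ (i : ℕ) (A : ℤ[X]), Win (p * p ^ i) A → (p : ℤ) ^ (k + i) ∣ E p (p ^ i) A (mu p j k)) ∧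
      (p : ℤ) ^ k ∣ trinomial (mu p j k) := by
  induction k with
  | zero =>
    refine ⟨fun i A _ => (pow_dvd_pow _ (by omega)).trans (dvd_E hp i A _), by simp⟩
  | succ k ih =>
    obtain ⟨h1, h2⟩ := ih
    have g1 : ∀ (i : ℕ) (A : ℤ[X]), Win (p * p ^ i) A →
        (p : ℤ) ^ (k + (i + 1)) ∣ E p (p ^ i) A (0 + p * mu p j k) := by
      intro i A hA
      obtain ⟨A', B, hA', -, hB, hr⟩ := E_rec hp i hp.pos hA
      rw [hr, hB rfl]
      simpa [S] using h1 (i + 1) A' hA'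
    have g2 : (p : ℤ) ^ k ∣ trinomial (0 + p * mu p j k) := by
      obtain ⟨A, hA, hT⟩ := T_digit hp hp.pos
      rw [(hT _).2]
      exact dvd_add (h2.mul_left _) (by simpa using h1 0 A hA)
    have g3 := S_dvd hp (fun i A hA => (pow_dvd_pow _ (by omega)).trans (g1 i A hA)) g2
    constructor
    · intro i A hA
      obtain ⟨A', B, hA', hB, -, hr⟩ := E_rec hp i hj hA
      rw [mu, hr]
      refine dvd_add ?_ ((pow_dvd_pow _ (by omega)).trans (g1 (i + 1) A' hA'))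
      rw [show k + 1 + i = i + 1 + k by ring, pow_add]
      exact mul_dvd_mul_left _ (g3 _ B hB)
    · obtain ⟨A, hA, hT⟩ := T_digit hp hj
      rw [mu, (hT _).2]
      refine dvd_add ?_ (g1 0 A hA)
      rw [pow_succ']
      exact mul_dvd_mul hz g2

lemma not_dvd_two (h2 : p ≠ 2) : ¬ (p : ℤ) ∣ 2 := fun h =>
  h2 ((Nat.prime_dvd_prime_iff_eq hp Nat.prime_two).1 (by exact_mod_cast h))

lemma zero_final (h2 : p ≠ 2) {j : ℕ} (hj : j < p) (hz : (p : ℤ) ∣ trinomial j) (k : ℕ) :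
    ∃ m < p ^ (2 * k), (p : ℤ) ^ k ∣ motzkin m := by
  obtain ⟨h1, h3⟩ := zero_case hp hj hz k
  have hS := S_dvd hp (fun i A hA => (pow_dvd_pow _ (by omega)).trans (h1 i A hA)) h3
  have hT : ∀ d < p, (p : ℤ) ^ k ∣ trinomial (p * mu p j k + d) := by
    intro d hd
    obtain ⟨A, hA, hT⟩ := T_digit hp hd
    rw [add_comm, (hT _).1]
    exact hS 1 A (by simpa using hA)
  have h3p : 2 < p := by have := hp.two_le; omega
  refine ⟨p * mu p j k, mu_lt hj k, cancel hp (not_dvd_two hp h2) ?_⟩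
  rw [M_three]
  exact dvd_sub (dvd_add ((hT 0 (by omega)).mul_left _) ((hT 1 (by omega)).mul_left _))
    (hT 2 h3p)

lemma gauss1 (s N : ℕ) :
    (p : ℤ) ^ (s + 1) ∣ trinomial (p * (p ^ s * N)) - trinomial (p ^ s * N) := by
  obtain ⟨G, hG⟩ := frob hp s N
  have h := congrArg (fun f => coeff f (p * (p ^ s * N))) hG
  simp only [coeff_sub, coeff_C_mul] at h
  rw [coeff_expand_mul' hp.pos, mul_assoc] at h
  exact ⟨_, h⟩

lemma gauss2 (h3 : p % 3 ≠ 0) (s N a b : ℕ) (ha : a + 1 = p ^ s * N) (hb : b + 1 = p * (a + 1)) :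
    (p : ℤ) ^ (s + 1) ∣ trinomial b - chi p * trinomial a := by
  obtain ⟨q, rfl⟩ : ∃ q, p = q + 1 := ⟨p - 1, by have := hp.pos; omega⟩
  obtain ⟨D, H, hD, -, dD, -⟩ := exists_DH hp h3
  have h1 := frob hp s N
  rw [mul_assoc, ← ha, ← hb, pow_succ PP b, pow_succ PP a, map_mul, hD] at h1
  have h2 : C (((q + 1 : ℕ) : ℤ) ^ (s + 1)) ∣ PP ^ b - D * expand ℤ (q + 1) (PP ^ a) := by
    have h4 : PP ^ b * PP - expand ℤ (q + 1) (PP ^ a) * (D * PP)
        = PP * (PP ^ b - D * expand ℤ (q + 1) (PP ^ a)) := by ring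
    rw [h4] at h1
    rw [C_dvd_iff_dvd_coeff] at h1 ⊢
    intro i
    rw [coeff_div]
    refine Finset.dvd_sum fun x _ => Dvd.dvd.mul_left ?_ _
    rw [mul_comm]
    exact h1 x
  rw [C_dvd_iff_dvd_coeff] at h2
  have h5 := h2 b
  have hb' : b = (q + 1) * a + q := by
    have : (q + 1) * (a + 1) = (q + 1) * a + q + 1 := by ring
    omega
  rw [coeff_sub] at h5
  nth_rewrite 3 [hb'] at h5
  rw [coeff_mul_expand1 (by omega) _ _ _ (by omega), D_coeff hD (by omega)] at h5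
  exact h5

variable (hU : ∀ n, ¬ (p : ℤ) ∣ trinomial n)
include hU

lemma Rel.trans {K a b c : ℕ} (h1 : Rel p K a b) (h2 : Rel p K b c) : Rel p K a c := by
  obtain ⟨x, hx⟩ := h1
  obtain ⟨y, hy⟩ := h2
  apply cancel hp (hU (b + 1))
  exact ⟨x * trinomial (c + 1) + y * trinomial (a + 1),
    by linear_combination trinomial (c + 1) * hx + trinomial (a + 1) * hy⟩

lemma rel_step {K a b : ℕ} (h : a ≡ b [MOD p ^ K])
    (h0 : (p : ℤ) ^ K ∣ trinomial (a / p) * trinomial ((b + 1) / p)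
      - trinomial (b / p) * trinomial ((a + 1) / p)) : Rel p K a b := by
  obtain ⟨x, hx⟩ := dwork hp hU h
  obtain ⟨y, hy⟩ := dwork hp hU (h.add_right 1)
  obtain ⟨z, hz⟩ := h0
  apply cancel hp (hU (b / p))
  apply cancel hp (hU ((a + 1) / p))
  refine ⟨x * trinomial (b + 1) * trinomial ((a + 1) / p)
    - y * trinomial b * trinomial (a / p) + z * trinomial b * trinomial (a + 1), ?_⟩
  linear_combination (trinomial (b + 1) * trinomial ((a + 1) / p)) * hx
    - (trinomial b * trinomial (a / p)) * hy + (trinomial b * trinomial (a + 1)) * hz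

lemma rel_mod {K N N' : ℕ} (h : N ≡ N' [MOD p ^ K]) (hN : ¬ p ∣ N) (hN' : ¬ p ∣ N') (s : ℕ) :
    ∀ a b, a + 1 = p ^ s * N → b + 1 = p ^ s * N' → Rel p K a b := by
  have hab : ∀ s a b, a + 1 = p ^ s * N → b + 1 = p ^ s * N' → a ≡ b [MOD p ^ K] := by
    intro s a b ha hb
    apply Nat.ModEq.add_right_cancel' 1
    rw [ha, hb]
    exact h.mul_left _
  induction s with
  | zero =>
    intro a b ha hb
    apply rel_step hp hU (hab 0 a b ha hb)
    rw [pow_zero, one_mul] at ha hb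
    rw [Nat.succ_div_of_not_dvd (a := a) (by rwa [ha]), Nat.succ_div_of_not_dvd (a := b) (by rwa [hb])]
    exact ⟨0, by ring⟩
  | succ s ih =>
    intro a b ha hb
    apply rel_step hp hU (hab _ a b ha hb)
    rw [pow_succ', mul_assoc] at ha hb
    have e1 := Nat.succ_div_of_dvd (a := a) (b := p) ⟨_, ha⟩
    have e2 := Nat.succ_div_of_dvd (a := b) (b := p) ⟨_, hb⟩
    rw [e1, e2]
    apply ih
    · rw [← e1, ha, Nat.mul_div_cancel_left _ hp.pos]
    · rw [← e2, hb, Nat.mul_div_cancel_left _ hp.pos]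

omit hU in
lemma rel_two (h3 : p % 3 ≠ 0) {s N a b : ℕ} (ha : a + 1 = p ^ (s + 2) * N)
    (hb : b + 1 = p ^ s * N) : Rel p (s + 1) a b := by
  obtain ⟨c, hc⟩ : ∃ c, c + 1 = p * (b + 1) :=
    ⟨p * (b + 1) - 1, by have : 0 < p * (b + 1) := Nat.mul_pos hp.pos (by omega); omega⟩
  have hc' : c + 1 = p ^ (s + 1) * N := by rw [hc, hb]; ring
  obtain ⟨x, hx⟩ := gauss2 hp h3 s N b c hb hc
  obtain ⟨y, hy⟩ := gauss2 hp h3 (s + 1) N c a hc' (by rw [ha, hc']; ring)
  obtain ⟨u, hu⟩ := gauss1 hp s N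
  obtain ⟨v, hv⟩ := gauss1 hp (s + 1) N
  rw [← hb, ← hc] at hu
  rw [← hc', show p * (c + 1) = a + 1 by rw [ha, hc']; ring] at hv
  have hchi := chi_sq h3
  refine ⟨(p * y + chi p * x) * trinomial (b + 1) - trinomial b * (p * v + u), ?_⟩
  linear_combination trinomial (b + 1) * hy + chi p * trinomial (b + 1) * hx
    + trinomial b * trinomial (b + 1) * hchi - trinomial b * hv - trinomial b * hu

lemma rel_small (h3 : p % 3 ≠ 0) {K : ℕ} (hK : 2 ≤ K) {a : ℕ} (ha : p ∣ a + 1) :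
    ∃ b, p ∣ b + 1 ∧ b + 1 < p ^ (2 * K) ∧ Rel p K a b := by
  obtain ⟨s, N, hN, hs⟩ := Nat.exists_eq_pow_mul_and_not_dvd (Nat.succ_ne_zero a) p hp.ne_one
  have hs1 : 1 ≤ s := by
    rcases s with _ | s
    · rw [pow_zero, one_mul] at hs
      exact absurd (hs ▸ ha) hN
    · omega
  have hN0 : 0 < N := Nat.pos_of_ne_zero (by rintro rfl; exact hN (dvd_zero p))
  replace hs : a + 1 = p ^ s * N := hs
  clear ha
  induction s using Nat.strong_induction_on generalizing a with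
  | _ s ih =>
    by_cases hsK : s ≤ K
    · have hm : N ≡ N % p ^ K [MOD p ^ K] := (Nat.mod_modEq N _).symm
      have hN' : ¬ p ∣ N % p ^ K := by
        rwa [Nat.dvd_mod_iff (dvd_pow_self p (by omega))]
      have h0 : 0 < N % p ^ K := Nat.pos_of_ne_zero fun h => hN' (h ▸ dvd_zero p)
      obtain ⟨b, hb⟩ : ∃ b, b + 1 = p ^ s * (N % p ^ K) :=
        ⟨p ^ s * (N % p ^ K) - 1, by have := Nat.mul_pos (pow_pos hp.pos s) h0; omega⟩
      refine ⟨b, hb ▸ (dvd_pow_self p (by omega)).mul_right _, ?_,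
        rel_mod hp hU hm hN hN' s a b hs hb⟩
      rw [hb, two_mul, pow_add]
      exact Nat.mul_lt_mul_of_le_of_lt (Nat.pow_le_pow_right hp.pos hsK)
        (Nat.mod_lt _ (pow_pos hp.pos K)) (pow_pos hp.pos K)
    · obtain ⟨r, rfl⟩ : ∃ r, s = r + 2 := ⟨s - 2, by omega⟩
      obtain ⟨c, hc⟩ : ∃ c, c + 1 = p ^ r * N :=
        ⟨p ^ r * N - 1, by have := Nat.mul_pos (pow_pos hp.pos r) hN0; omega⟩
      obtain ⟨b, h1, h2, h4⟩ := ih r (by omega) (by omega) hc
      have h5 : Rel p K a c := (pow_dvd_pow _ (by omega)).trans (rel_two hp h3 hs hc)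
      exact ⟨b, h1, h2, Rel.trans hp hU h5 h4⟩

lemma Rel.lin {K a b : ℕ} (h : Rel p K a b) (x y : ℤ)
    (h0 : (p : ℤ) ^ K ∣ x * trinomial a + y * trinomial (a + 1)) :
    (p : ℤ) ^ K ∣ x * trinomial b + y * trinomial (b + 1) := by
  obtain ⟨u, hu⟩ := h
  obtain ⟨v, hv⟩ := h0
  apply cancel hp (hU a)
  exact ⟨v * trinomial b + y * u, by linear_combination trinomial b * hv + y * hu⟩

lemma unit_odd (h2 : p ≠ 2) (h3 : p % 3 ≠ 0) {k n : ℕ} (hk : 2 ≤ k)
    (h : (p : ℤ) ^ k ∣ motzkin n) : ∃ m < p ^ (2 * k), (p : ℤ) ^ k ∣ motzkin m := by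
  have hP := prime_int hp
  have hn2 := not_dvd_two hp h2
  have h1 : ¬ (p : ℤ) ∣ 1 := hP.not_dvd_one
  by_cases hA : p ∣ n + 1 + 1
  · obtain ⟨b, b1, b2, b3⟩ := rel_small hp hU h3 hk hA
    have e := b3.lin hp hU (-1) 1 (by
      obtain ⟨x, hx⟩ := h
      exact ⟨2 * (n + 1) * x, by linear_combination -M_A n + 2 * ((n : ℤ) + 1) * hx⟩)
    obtain ⟨c, rfl⟩ : ∃ c, b = c + 1 := by
      rcases b with _ | c
      · exact absurd (Nat.dvd_one.1 b1) hp.ne_one
      · exact ⟨c, rfl⟩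
    refine ⟨c, by omega, cancel hp (u := 2 * ((c : ℤ) + 1)) ?_ ?_⟩
    · intro hd
      rcases hP.dvd_or_dvd hd with hd | hd
      · exact hn2 hd
      · have : (p : ℤ) ∣ (c : ℤ) + 1 + 1 := by exact_mod_cast b1
        exact h1 ((dvd_add_right hd).1 this)
    · rw [M_A]
      obtain ⟨x, hx⟩ := e
      exact ⟨x, by linear_combination hx⟩
  by_cases hB : p ∣ n + 1
  · obtain ⟨b, b1, b2, b3⟩ := rel_small hp hU h3 hk hB
    have e := b3.lin hp hU 3 1 (by
      obtain ⟨x, hx⟩ := h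
      exact ⟨2 * (n + 2) * x, by linear_combination -M_B n + 2 * ((n : ℤ) + 2) * hx⟩)
    refine ⟨b, by omega, cancel hp (u := 2 * ((b : ℤ) + 2)) ?_ ?_⟩
    · intro hd
      rcases hP.dvd_or_dvd hd with hd | hd
      · exact hn2 hd
      · have h4 : (p : ℤ) ∣ (b : ℤ) + 1 := by exact_mod_cast b1
        rw [show (b : ℤ) + 2 = b + 1 + 1 by ring] at hd
        exact h1 ((dvd_add_right h4).1 hd)
    · rw [M_B]
      obtain ⟨x, hx⟩ := e
      exact ⟨x, by linear_combination hx⟩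
  have hm : n ≡ n % p ^ k [MOD p ^ k] := (Nat.mod_modEq n _).symm
  set m := n % p ^ k with hmd
  have hm1 : n ≡ m [MOD p] := Nat.ModEq.of_dvd (dvd_pow_self p (by omega)) hm
  have hA' : ¬ p ∣ m + 1 + 1 := fun hd =>
    hA ((((hm1.add_right 1).add_right 1).dvd_iff dvd_rfl).2 hd)
  have hB' : ¬ p ∣ m + 1 := fun hd => hB (((hm1.add_right 1).dvd_iff dvd_rfl).2 hd)
  obtain ⟨x0, h0⟩ := dwork hp hU hm
  obtain ⟨x1, h1⟩ := dwork hp hU (hm.add_right 1)
  obtain ⟨x2, h2⟩ := dwork hp hU ((hm.add_right 1).add_right 1)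
  rw [Nat.succ_div_of_not_dvd hA, Nat.succ_div_of_not_dvd hA'] at h2
  rw [Nat.succ_div_of_not_dvd hB, Nat.succ_div_of_not_dvd hB'] at h1 h2
  refine ⟨m, lt_of_lt_of_le (Nat.mod_lt _ (pow_pos hp.pos k))
    (Nat.pow_le_pow_right hp.pos (by omega)), ?_⟩
  apply cancel hp hn2
  apply cancel hp (hU (n / p))
  obtain ⟨x, hx⟩ := h
  refine ⟨2 * x * trinomial (m / p) - (3 * x0 + 2 * x1 - x2), ?_⟩
  linear_combination trinomial (n / p) * M_three m - trinomial (m / p) * M_three n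
    + 2 * trinomial (m / p) * hx - 3 * h0 - 2 * h1 + h2

omit hU in
lemma one_case (h2 : p ≠ 2) (h3 : p % 3 ≠ 0) : ∃ m < p ^ 2, (p : ℤ) ∣ motzkin m := by
  have hp2 := hp.two_le
  obtain ⟨c, hc⟩ : ∃ c, c + 1 + 1 = p ^ (0 + 2) * 1 := ⟨p ^ 2 - 2, by
    have : 2 ≤ p ^ 2 := by nlinarith
    simp; omega⟩
  have h := rel_two hp h3 (b := 0) hc (by simp)
  rw [Rel, zero_add, pow_one, T0, T1] at h
  refine ⟨c, by simp at hc; omega, ?_⟩
  have hP := prime_int hp
  have h4 : (p : ℤ) ∣ 2 * ((c : ℤ) + 1) * motzkin c := by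
    rw [M_A]
    obtain ⟨x, hx⟩ := h
    exact ⟨-x, by linear_combination -hx⟩
  rcases hP.dvd_or_dvd h4 with hd | hd
  · rcases hP.dvd_or_dvd hd with hd | hd
    · exact absurd hd (not_dvd_two hp h2)
    · have h5 : (p : ℤ) ∣ (c : ℤ) + 1 + 1 := by
        have : p ∣ c + 1 + 1 := hc ▸ (dvd_pow_self p (by omega)).mul_right _
        exact_mod_cast this
      exact absurd ((dvd_add_right hd).1 h5) hP.not_dvd_one
  · exact hd

end

/-- the pair `(T n, T (n+1))`, by the recurrence -/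
def tt : ℕ → ℕ × ℕ
  | 0 => (1, 1)
  | n + 1 => ((tt n).2, ((2 * n + 3) * (tt n).2 + 3 * (n + 1) * (tt n).1) / (n + 2))

lemma tt_eq (n : ℕ) : ((tt n).1 : ℤ) = trinomial n ∧ ((tt n).2 : ℤ) = trinomial (n + 1) := by
  induction n with
  | zero => simp [tt, T0, T1]
  | succ n ih =>
    refine ⟨by rw [tt, ih.2], ?_⟩
    rw [tt]
    push_cast
    rw [ih.1, ih.2, ← T_rec, Int.mul_ediv_cancel_left _ (by omega)]

/-- all pairs up to `n` pass the test modulo 16 -/
def chk : ℕ → ℕ × ℕ × Bool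
  | 0 => (1, 1, true)
  | n + 1 =>
    match chk n with
    | (x, y, c) => (y, ((2 * n + 3) * y + 3 * (n + 1) * x) / (n + 2),
      c && (n % 2 == 0 || (x % 16 != y % 16 && (3 * x + y) % 16 != 0)))

lemma chk_spec (n : ℕ) : (chk n).1 = (tt n).1 ∧ (chk n).2.1 = (tt n).2 ∧
    ((chk n).2.2 = true → ∀ b < n, b % 2 = 1 →
      (tt b).1 % 16 ≠ (tt b).2 % 16 ∧ (3 * (tt b).1 + (tt b).2) % 16 ≠ 0) := by
  induction n with
  | zero => simp [chk, tt]
  | succ n ih =>
    obtain ⟨h1, h2, h3⟩ := ih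
    rw [chk, tt]
    rcases hc : chk n with ⟨x, y, c⟩
    rw [hc] at h1 h2 h3
    simp only at h1 h2 h3
    subst h1 h2
    refine ⟨rfl, rfl, fun h b hb hb2 => ?_⟩
    simp only [Bool.and_eq_true, Bool.or_eq_true, beq_iff_eq, bne_iff_ne] at h
    rcases Nat.lt_succ_iff_lt_or_eq.1 hb with hb | rfl
    · exact h3 h.1 b hb hb2
    · exact h.2.resolve_left (by omega)

lemma chk_ok : (chk 256).2.2 = true := by decide +kernel

lemma not_eight (n : ℕ) : ¬ (2 : ℤ) ^ 3 ∣ motzkin n := by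
  intro h
  have hU : ∀ n, ¬ ((2 : ℕ) : ℤ) ∣ trinomial n := unit_all Nat.prime_two fun j hj => by
    interval_cases j
    · rw [T0]; norm_num
    · rw [T1]; norm_num
  obtain ⟨x, hx⟩ := h
  have key := (chk_spec 256).2.2 chk_ok
  by_cases hA : 2 ∣ n + 1 + 1
  · obtain ⟨b, b1, b2, b3⟩ := rel_small Nat.prime_two hU (by norm_num) (K := 4) (by norm_num) hA
    have e := b3.lin Nat.prime_two hU (-1) 1
      ⟨(n + 1) * x, by push_cast; linear_combination -M_A n + 2 * ((n : ℤ) + 1) * hx⟩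
    have h1 := (key b (by omega) (by omega)).1
    rw [← (tt_eq b).1, ← (tt_eq b).2] at e
    omega
  · obtain ⟨b, b1, b2, b3⟩ := rel_small Nat.prime_two hU (by norm_num) (K := 4) (by norm_num)
      (a := n) (by omega)
    have e := b3.lin Nat.prime_two hU 3 1
      ⟨(n + 2) * x, by push_cast; linear_combination -M_B n + 2 * ((n : ℤ) + 2) * hx⟩
    have h1 := (key b (by omega) (by omega)).2
    rw [← (tt_eq b).1, ← (tt_eq b).2] at e
    omega

theorem first_zero {p k n : ℕ} (hp : p.Prime) (h : (p : ℤ) ^ k ∣ motzkin n) :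
    ∃ m < p ^ (2 * k), (p : ℤ) ^ k ∣ motzkin m := by
  rcases Nat.eq_zero_or_pos k with rfl | hk
  · exact ⟨0, by simp, by simp⟩
  by_cases h2 : p = 2
  · subst h2
    by_cases h3 : 3 ≤ k
    · exact absurd ((pow_dvd_pow _ h3).trans h) (not_eight n)
    · have : k = 1 ∨ k = 2 := by omega
      rcases this with rfl | rfl
      · exact ⟨3, by norm_num, by simp [motzkin, Finset.sum_range_succ, Nat.choose]⟩
      · exact ⟨3, by norm_num, by simp [motzkin, Finset.sum_range_succ, Nat.choose]⟩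
  by_cases hU : ∀ j < p, ¬ (p : ℤ) ∣ trinomial j
  · have h3 : p % 3 ≠ 0 := h3_of hp (by
      rintro rfl
      apply hU 2 (by norm_num)
      rw [← (tt_eq 2).1]
      simp [tt])
    by_cases hk1 : k = 1
    · subst hk1
      simpa using one_case hp h2 h3
    · exact unit_odd hp (unit_all hp hU) h2 h3 (by omega) h
  · push Not at hU
    obtain ⟨j, hj, hz⟩ := hU
    exact zero_final hp h2 hj hz k

end Pool.Agent.P.MP_93ad88_nt.PW
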