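import Pool.Agent.P.MP_93ad88_nt.PW.Dwork

set_option autoImplicit false

namespace Pool.Agent.P.MP_93ad88_nt.PW

open Polynomial

section
variable {p : ℕ} (hp : p.Prime)
include hp

/-- Lucas: a prime that divides no `T j`, `j < p`, divides no `T n`. -/
lemma unit_all (h : ∀ j < p, ¬ (p : ℤ) ∣ trinomial j) (n : ℕ) : ¬ (p : ℤ) ∣ trinomial n := by
  induction n using Nat.strong_induction_on with
  | _ n ih =>
    by_cases hn : n < p
    · exact h n hn
    have hd : n % p < p := Nat.mod_lt _ hp.pos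
    obtain ⟨A, -, hA⟩ := T_digit hp hd
    have h1 := (hA (n / p)).2
    rw [Nat.mod_add_div] at h1
    intro hdv
    have h2 := dvd_E hp 0 A (n / p)
    rw [zero_add, pow_one] at h2
    rw [h1] at hdv
    rcases (prime_int hp).dvd_or_dvd ((dvd_add_left h2).1 hdv) with h3 | h3
    · exact h _ hd h3
    · exact ih _ (Nat.div_lt_self (by have := hp.pos; omega) hp.one_lt) h3

lemma cancel {K : ℕ} {u x : ℤ} (hu : ¬ (p : ℤ) ∣ u) (h : (p : ℤ) ^ K ∣ u * x) :
    (p : ℤ) ^ K ∣ x :=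
  (((prime_int hp).coprime_iff_not_dvd.2 hu).pow_left (m := K)).dvd_of_dvd_mul_left h

lemma S_of_E {j : ℕ} {m m' : ℕ}
    (hE : ∀ (i : ℕ) (A : ℤ[X]), Win (p * p ^ i) A →
      (p : ℤ) ^ j ∣ E p (p ^ i) A m * trinomial m' - E p (p ^ i) A m' * trinomial m)
    (i : ℕ) : ∀ A : ℤ[X], Win (p ^ i) A →
      (p : ℤ) ^ j ∣ S (p ^ i) A m * trinomial m' - S (p ^ i) A m' * trinomial m := by
  induction i with
  | zero =>
    intro A hA
    rw [pow_zero] at hA ⊢
    rw [S_one hA, S_one hA]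
    exact ⟨0, by ring⟩
  | succ i ih =>
    intro A hA
    rw [pow_succ'] at hA ⊢
    rw [S_eq hp.ne_zero, S_eq hp.ne_zero]
    have h1 := ih _ (hA.contract hp.ne_zero (pow_ne_zero _ hp.ne_zero))
    have h2 := hE i A hA
    obtain ⟨x, hx⟩ := dvd_add h1 h2
    exact ⟨x, by linear_combination hx⟩

omit hp in
lemma split_mod {j m m' : ℕ} (h : m ≡ m' [MOD p ^ (j + 1)]) :
    m % p = m' % p ∧ m / p ≡ m' / p [MOD p ^ j] := by
  have h1 : m % p = m' % p := Nat.ModEq.of_dvd (dvd_pow_self p (by omega)) h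
  refine ⟨h1, ?_⟩
  rcases Nat.eq_zero_or_pos p with rfl | h0
  · simp [Nat.ModEq]
  have h2 : m % p + p * (m / p) ≡ m % p + p * (m' / p) [MOD p * p ^ j] := by
    rw [Nat.mod_add_div]
    conv_rhs => rw [h1, Nat.mod_add_div]
    rwa [← pow_succ']
  exact Nat.ModEq.mul_left_cancel' h0.ne' (Nat.ModEq.add_left_cancel' _ h2)

variable (hU : ∀ n, ¬ (p : ℤ) ∣ trinomial n)
include hU

lemma E_cong (j : ℕ) : ∀ (m m' : ℕ), m ≡ m' [MOD p ^ j] → ∀ (i : ℕ) (A : ℤ[X]),
    Win (p * p ^ i) A →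
      (p : ℤ) ^ (i + 1 + j) ∣ E p (p ^ i) A m * trinomial m' - E p (p ^ i) A m' * trinomial m := by
  induction j with
  | zero =>
    intro m m' _ i A _
    exact dvd_sub ((dvd_E hp i A m).mul_right _) ((dvd_E hp i A m').mul_right _)
  | succ j ih =>
    intro m m' hm i A hA
    obtain ⟨h1, h2⟩ := split_mod hm
    have hd : m % p < p := Nat.mod_lt _ hp.pos
    have hS := S_of_E hp (j := j + 1) (m := m / p) (m' := m' / p) fun i A hA =>
      (pow_dvd_pow _ (by omega)).trans (ih _ _ h2 i A hA)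
    obtain ⟨A0, hA0, hT⟩ := T_digit hp hd
    have e1 := (hT (m / p)).1
    have e2 := (hT (m' / p)).1
    rw [Nat.mod_add_div] at e1
    rw [h1, Nat.mod_add_div] at e2
    obtain ⟨x, hx⟩ := hS 1 A0 (by simpa using hA0)
    rw [← e1, ← e2] at hx
    obtain ⟨A', B, hA', hB, -, hr⟩ := E_rec hp i hd hA
    have f1 := hr (m / p)
    have f2 := hr (m' / p)
    rw [Nat.mod_add_div] at f1
    rw [h1, Nat.mod_add_div] at f2
    obtain ⟨y, hy⟩ := hS (i + 1) B hB
    obtain ⟨z, hz⟩ := ih _ _ h2 (i + 1) A' hA'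
    obtain ⟨w, hw⟩ := dvd_E hp (i + 1) A' (m / p)
    apply cancel hp (hU (m / p))
    rw [f1, f2]
    refine ⟨y * trinomial m - S (p ^ (i + 1)) B (m / p) * x + z * trinomial m - p * w * x, ?_⟩
    rw [hw] at hz ⊢
    linear_combination ((p : ℤ) ^ (i + 1) * trinomial m) * hy
      - ((p : ℤ) ^ (i + 1) * S (p ^ (i + 1)) B (m / p) + p ^ (i + 1 + 1) * w) * hx
      + trinomial m * hz

/-- the Dwork congruence -/
lemma dwork {K n n' : ℕ} (h : n ≡ n' [MOD p ^ K]) :
    (p : ℤ) ^ K ∣ trinomial n * trinomial (n' / p) - trinomial n' * trinomial (n / p) := by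
  rcases K with _ | j
  · simp
  obtain ⟨h1, h2⟩ := split_mod h
  have hS := S_of_E hp (j := j + 1) (m := n / p) (m' := n' / p) fun i A hA =>
    (pow_dvd_pow _ (by omega)).trans (E_cong hp hU j _ _ h2 i A hA)
  obtain ⟨A0, hA0, hT⟩ := T_digit hp (Nat.mod_lt n hp.pos)
  have e1 := (hT (n / p)).1
  have e2 := (hT (n' / p)).1
  rw [Nat.mod_add_div] at e1
  rw [h1, Nat.mod_add_div] at e2
  rw [e1, e2]
  exact hS 1 A0 (by simpa using hA0)

end

end Pool.Agent.P.MP_93ad88_nt.PW
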